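import Pool.Agent.helper59.BR.SpecH

set_option autoImplicit false

namespace Pool.Agent.BR

open Pool.Agent.helper58.DC Pool.Agent.DI Pool.Agent.GR Pool.Agent.OB Pool.Agent.DR Pool.Agent.FI Pool.Agent.FI3 Pool.Agent.FI4 Pool.Agent.LE

theorem HHT_one {p n m : ℕ} (hp : p.Prime) (hn : n ≠ 0) (hm : Gm2 p n m) : ∃ N : ℕ, m ^ p ^ N ≡ 1 [MOD n] := by
  obtain ⟨a, n', hn', rfl⟩ : ∃ a n', ¬ p ∣ n' ∧ n = p ^ a * n' := Nat.exists_eq_pow_mul_and_not_dvd hn p hp.ne_one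
  have h1 : m ≡ 1 [MOD n'] := hm.reg n' (Dvd.intro_left _ rfl) hn'
  have hcop : (p ^ a).Coprime n' := Nat.Coprime.pow_left a ((Nat.Prime.coprime_iff_not_dvd hp).2 hn')
  refine ⟨a, ?_⟩
  have h2 : m ^ p ^ a ≡ 1 [MOD n'] := by
    have := h1.pow (p ^ a)
    rwa [one_pow] at this
  have h3 : m ^ p ^ a ≡ 1 [MOD p ^ a] := by
    rcases Nat.eq_zero_or_pos a with h0 | h0
    · subst h0
      exact Nat.modEq_one
    · have h4 : m ≡ 1 [MOD p] := hm.one (dvd_mul_of_dvd_left (dvd_pow_self p h0.ne') _)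
      have h5 : (p : ℤ) ∣ (m : ℤ) - 1 := by
        have := Nat.modEq_iff_dvd.1 h4.symm
        exact_mod_cast this
      have h6 := dvd_sub_pow_of_dvd_sub (R := ℤ) (p := p) (a := (m : ℤ)) (b := 1) h5 a
      rw [one_pow] at h6
      refine (Nat.modEq_iff_dvd.2 ?_).symm
      push_cast
      exact dvd_trans (pow_dvd_pow _ (Nat.le_succ a)) h6
  exact (Nat.modEq_and_modEq_iff_modEq_mul hcop).1 ⟨h3, h2⟩

theorem HHT_reg {p m : ℕ} {G : Type} [Group G] [Finite G] (hm : Gm2 p (Nat.card G) m) {x : G} (hx : PReg p x) :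
    x ^ m = x := by
  have h1 := hm.reg (orderOf x) (orderOf_dvd_natCard x) hx
  have h2 := pow_eq_pow_iff_modEq.2 h1
  rwa [pow_one] at h2

theorem HHT_cc {p m : ℕ} {G : Type} [Group G] [Finite G] (hm : Gm2 p (Nat.card G) m) (e ψ : G → ℂ)
    (he : ∀ x, ¬ PReg p x → e x = 0) : cc (fun g => ψ (g ^ m)) e = cc ψ e := by
  unfold cc
  show (∑ᶠ x, e x * ψ (x ^ m)) / ψ (1 ^ m) = (∑ᶠ x, e x * ψ x) / ψ 1
  rw [one_pow]
  congr 1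
  refine finsum_congr fun x => ?_
  by_cases hx : PReg p x
  · show e x * ψ (x ^ m) = e x * ψ x
    rw [HHT_reg hm hx]
  · rw [he x hx, zero_mul, zero_mul]

theorem HHT_mem (hBLE : BLE_stmt) (hZT4 : ZT4_stmt) {p m : ℕ} {M : Ideal (integralClosure ℤ ℂ)} (hS : Setup p M)
    {G : Type} [Group G] [Finite G] (hm : Gm2 p (Nat.card G) m) (θ ψ : G → ℂ)
    (hψ : ψ ∈ Bl M (⊤ : Subgroup G) θ) : (fun g => ψ (g ^ m)) ∈ Bl M (⊤ : Subgroup G) θ := by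
  obtain ⟨-, -, -, -, h1, h2, h3, h4⟩ := hBLE p M hS G ⊤ ⊤ le_rfl θ
  rw [h4] at h1 h2 h3
  by_contra hc
  have h5 := h2 _ (hZT4 G m hm.cop ⊤ ψ hψ.1) hc
  rw [HHT_cc hm _ ψ h3, h1 ψ hψ] at h5
  exact one_ne_zero h5

theorem HHT_mt {m : ℕ} {G : Type} [Group G] [Finite G] (hcop : m.Coprime (Nat.card G)) (C : Subgroup G)
    (ψ θ₁ : G → ℂ) (h0 : ∀ g, g ∉ C → θ₁ g = 0) (hPR : PR m θ₁) :
    mt C (fun g => ψ (g ^ m)) θ₁ = mt C ψ θ₁ := by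
  classical
  unfold Pool.Agent.FI.mt
  congr 1
  have h1 : ∀ F : G → ℂ, ∑ᶠ x ∈ (C : Set G), F x * θ₁ x⁻¹ = ∑ᶠ x, F x * θ₁ x⁻¹ := by
    intro F
    refine finsum_congr fun x => ?_
    by_cases hx : x ∈ (C : Set G)
    · rw [finsum_eq_if, if_pos hx]
    · rw [finsum_eq_if, if_neg hx, h0 x⁻¹ (fun h => hx (by simpa using C.inv_mem h)), mul_zero]
  rw [h1, h1 ψ, ← finsum_comp_equiv (powCoprime hcop.symm) (f := fun x => ψ x * θ₁ x⁻¹)]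
  refine finsum_congr fun x => ?_
  show ψ (x ^ m) * θ₁ x⁻¹ = ψ (x ^ m) * θ₁ (x ^ m)⁻¹
  rw [← inv_pow, hPR]

theorem HHT (hHCN : HCN_stmt) (hHCM : HCM_stmt) (hHSM : HSM_stmt) (hHFX : HFX_stmt) (hHAI : HAI_stmt)
    (hBLE : BLE_stmt) (hQRS : QRS_stmt) (hZT4 : ZT4_stmt) (hB2 : B2_stmt) : HHT_stmt := by
  classical
  intro p M hS hp2 G _ _ D x θ χ h m hm
  obtain ⟨θ₁, hθ₁, hθ1⟩ := hHCN p M hS hp2 G D x θ χ h
  have hPR := hHCM p M hS G D x θ χ h θ₁ hθ₁ hθ1 m hm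
  have hSM := hHSM p M hS hp2 G D x θ χ h θ₁ hθ₁
  have hfin : (Bl M (⊤ : Subgroup G) θ).Finite := (hB2 G ⊤).1.subset fun ψ hψ => hψ.1
  have hfB : Finite ↥(Bl M (⊤ : Subgroup G) θ) := hfin.to_subtype
  let _ : Fintype ↥(Bl M (⊤ : Subgroup G) θ) := Fintype.ofFinite _
  have hinj : Function.Injective (fun ψ : ↥(Bl M (⊤ : Subgroup G) θ) =>
      (⟨fun g => (ψ : G → ℂ) (g ^ m), HHT_mem hBLE hZT4 hS hm θ ψ ψ.2⟩ : ↥(Bl M (⊤ : Subgroup G) θ))) := by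
    intro ψ φ hψφ
    have h2 : (fun g => (ψ : G → ℂ) (g ^ m)) = fun g => (φ : G → ℂ) (g ^ m) := congrArg Subtype.val hψφ
    refine Subtype.ext (funext fun g => ?_)
    obtain ⟨g', hg'⟩ := (powCoprime hm.cop.symm).surjective g
    have h3 : g' ^ m = g := hg'
    have h4 := congrFun h2 g'
    simp only [h3] at h4
    exact h4
  obtain ⟨f, hf⟩ : ∃ f : Equiv.Perm ↥(Bl M (⊤ : Subgroup G) θ), ∀ ψ : ↥(Bl M (⊤ : Subgroup G) θ), ∀ g : G,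
      ((f ψ : ↥(Bl M (⊤ : Subgroup G) θ)) : G → ℂ) g = (ψ : G → ℂ) (g ^ m) :=
    ⟨Equiv.ofBijective _ (Finite.injective_iff_bijective.1 hinj), fun ψ g => rfl⟩
  have hfk : ∀ (k : ℕ) (ψ : ↥(Bl M (⊤ : Subgroup G) θ)) (g : G),
      (((f ^ k) ψ : ↥(Bl M (⊤ : Subgroup G) θ)) : G → ℂ) g = (ψ : G → ℂ) (g ^ m ^ k) := by
    intro k
    induction k with
    | zero => intro ψ g; rw [pow_zero, pow_zero, pow_one]; rfl
    | succ k ih =>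
      intro ψ g
      rw [pow_succ, Equiv.Perm.mul_apply, ih, hf, ← pow_mul, ← pow_succ]
  obtain ⟨N, hN⟩ := HHT_one hS.pr Nat.card_pos.ne' hm
  have hfN : f ^ p ^ N = 1 := by
    refine Equiv.ext fun ψ => Subtype.ext (funext fun g => ?_)
    rw [hfk]
    have h1 : g ^ m ^ p ^ N = g ^ 1 := pow_eq_pow_iff_modEq.2 (hN.of_dvd (orderOf_dvd_natCard g))
    rw [h1, pow_one]
    rfl
  have hbot : cz (⊥ : Subgroup G) = ⊤ := Pool.Agent.FI4B.BST_cz_bot G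
  have hAI : ∀ ψ ∈ Bl M (⊤ : Subgroup G) θ, IntAt M ((Nat.card D : ℂ) * ψ 1 / Nat.card G) := by
    intro ψ hψ
    have h1 := hHAI p M hS G D x θ χ h ⊥ bot_le ψ (by rw [hbot]; exact hψ)
    rw [hbot, Subgroup.card_top] at h1
    exact h1
  have hmt : ∀ ψ ∈ Bl M (⊤ : Subgroup G) θ, IntAt M (mt (cz D) ψ θ₁) := by
    intro ψ hψ
    obtain ⟨n, hn⟩ := (hQRS G ⊤ (cz D) le_top ψ hψ.1).1 θ₁ hθ₁.1
    rw [hn]
    exact IntAt.natCast hS n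
  have hv : ∀ g, g ∉ cz D → θ₁ g = 0 := hθ₁.1.1
  have hX := hHFX p M hS ↥(Bl M (⊤ : Subgroup G) θ) f N hfN
    (fun ψ => mt (cz D) ψ θ₁ * ((Nat.card D : ℂ) * (ψ : G → ℂ) 1 / Nat.card G))
    (fun ψ => (hmt ψ ψ.2).mul hS (hAI ψ ψ.2))
    (by
      intro ψ
      show mt (cz D) (f ψ) θ₁ * ((Nat.card D : ℂ) * ((f ψ : ↥(Bl M (⊤ : Subgroup G) θ)) : G → ℂ) 1 / Nat.card G) =
        mt (cz D) ψ θ₁ * ((Nat.card D : ℂ) * (ψ : G → ℂ) 1 / Nat.card G)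
      have h1 : ((f ψ : ↥(Bl M (⊤ : Subgroup G) θ)) : G → ℂ) = fun g => (ψ : G → ℂ) (g ^ m) := funext (hf ψ)
      rw [h1, HHT_mt hm.cop (cz D) ψ θ₁ hv hPR]
      show mt (cz D) ψ θ₁ * ((Nat.card D : ℂ) * (ψ : G → ℂ) (1 ^ m) / Nat.card G) =
        mt (cz D) ψ θ₁ * ((Nat.card D : ℂ) * (ψ : G → ℂ) 1 / Nat.card G)
      rw [one_pow])
  have hsum : ∑ ψ : ↥(Bl M (⊤ : Subgroup G) θ), mt (cz D) ψ θ₁ * ((Nat.card D : ℂ) * (ψ : G → ℂ) 1 / Nat.card G) =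
      ∑ᶠ ψ ∈ Bl M (⊤ : Subgroup G) θ, mt (cz D) ψ θ₁ * ((Nat.card D : ℂ) * ψ 1 / Nat.card G) := by
    rw [← finsum_eq_sum_of_fintype]
    exact finsum_set_coe_eq_finsum_mem (f := fun ψ : G → ℂ => mt (cz D) ψ θ₁ * ((Nat.card D : ℂ) * ψ 1 / Nat.card G)) _
  rw [← hsum] at hSM
  by_contra hcon
  push Not at hcon
  apply hSM
  have hfix : InM M (∑ᶠ b ∈ {b | f b = b}, mt (cz D) (b : G → ℂ) θ₁ * ((Nat.card D : ℂ) * (b : G → ℂ) 1 / Nat.card G)) := by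
    refine InM.finsum_mem hS fun b hb => ?_
    refine InM.mul_left hS (hmt b b.2) (hcon b b.2 fun g => ?_)
    have hb' : f b = b := hb
    have h1 := hf b g
    rw [hb'] at h1
    exact h1.symm
  have h1 := hX.add hS hfix
  rwa [sub_add_cancel] at h1

end Pool.Agent.BR
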